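import Pool.Agent.Helper54.DI.StmtsB

set_option autoImplicit false

namespace Pool.Agent.Helper52.DI

open Finset Filter Topology Pool.Agent.Helper54.ETR Pool.Agent.Helper54.Poly
open Pool.Agent.Helper54.DI

/-- one step of the reading of symbols -/
def stp (t : Tok) (st : List ℕ) : List ℕ :=
  match t with
  | Tok.e => 0 :: st
  | Tok.s => (match st with
    | [] => []
    | i :: st' => (i + 1) :: st')
  | _ => st

theorem vnum_eq (l : List Tok) : vnum l = l.foldr stp [] := rfl

theorem rep_s (n i : ℕ) (st : List ℕ) :
    (List.replicate n Tok.s).foldr stp (i :: st) = (i + n) :: st := by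
  induction n with
  | zero => rfl
  | succ n ih =>
    rw [List.replicate_succ, List.foldr_cons, ih]
    rfl

theorem term_fold (t : Term) : ∀ st : List ℕ, t.toks.foldr stp st = tvars t ++ st := by
  induction t with
  | zero => intro st; rfl
  | one => intro st; rfl
  | var i =>
    intro st
    have : (Term.var i).toks = Tok.x :: (List.replicate i Tok.s ++ [Tok.e]) := rfl
    rw [this, List.foldr_cons, List.foldr_append]
    have h2 : List.foldr stp st [Tok.e] = 0 :: st := rfl
    rw [h2, rep_s, Nat.zero_add]
    rfl
  | add s t hs ht =>
    intro st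
    have : (Term.add s t).toks = Tok.add :: (s.toks ++ t.toks) := rfl
    rw [this, List.foldr_cons, List.foldr_append, ht, hs]
    show tvars s ++ (tvars t ++ st) = (tvars s ++ tvars t) ++ st
    rw [List.append_assoc]
  | sub s t hs ht =>
    intro st
    have : (Term.sub s t).toks = Tok.sub :: (s.toks ++ t.toks) := rfl
    rw [this, List.foldr_cons, List.foldr_append, ht, hs]
    show tvars s ++ (tvars t ++ st) = (tvars s ++ tvars t) ++ st
    rw [List.append_assoc]
  | mul s t hs ht =>
    intro st
    have : (Term.mul s t).toks = Tok.mul :: (s.toks ++ t.toks) := rfl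
    rw [this, List.foldr_cons, List.foldr_append, ht, hs]
    show tvars s ++ (tvars t ++ st) = (tvars s ++ tvars t) ++ st
    rw [List.append_assoc]

theorem pair_fold (a : Tok) (ha : ∀ st, stp a st = st) (s t : Term) (st : List ℕ) :
    (a :: (s.toks ++ t.toks)).foldr stp st = (tvars s ++ tvars t) ++ st := by
  rw [List.foldr_cons, List.foldr_append, term_fold, term_fold, ha, List.append_assoc]

theorem form_fold (p : Form) : ∀ st : List ℕ, p.toks.foldr stp st = fvars p ++ st := by
  induction p with
  | lt s t => intro st; exact pair_fold Tok.lt (fun _ => rfl) s t st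
  | le s t => intro st; exact pair_fold Tok.le (fun _ => rfl) s t st
  | eq s t => intro st; exact pair_fold Tok.eq (fun _ => rfl) s t st
  | ge s t => intro st; exact pair_fold Tok.ge (fun _ => rfl) s t st
  | gt s t => intro st; exact pair_fold Tok.gt (fun _ => rfl) s t st
  | and p q hp hq =>
    intro st
    have : (Form.and p q).toks = Tok.and :: (p.toks ++ q.toks) := rfl
    rw [this, List.foldr_cons, List.foldr_append, hq, hp]
    show fvars p ++ (fvars q ++ st) = (fvars p ++ fvars q) ++ st
    rw [List.append_assoc]
  | or p q hp hq =>
    intro st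
    have : (Form.or p q).toks = Tok.or :: (p.toks ++ q.toks) := rfl
    rw [this, List.foldr_cons, List.foldr_append, hq, hp]
    show fvars p ++ (fvars q ++ st) = (fvars p ++ fvars q) ++ st
    rw [List.append_assoc]
  | not p hp =>
    intro st
    have : (Form.not p).toks = Tok.not :: p.toks := rfl
    rw [this, List.foldr_cons, hp]
    rfl

theorem st_VNUM : ST_VNUM := by
  constructor
  · intro t
    rw [vnum_eq, term_fold, List.append_nil]
  · intro p
    rw [vnum_eq, form_fold, List.append_nil]

end Pool.Agent.Helper52.DI
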